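import Pool.Agent.Helper19.RE.GammaContra
import Pool.Agent.Helper97.RE.ManyGood

/-!
# U5: `gamma_contra`
-/

set_option autoImplicit false
set_option linter.unusedVariables false

namespace Pool.Agent.Helper97.RE
open Finset Classical

theorem gamma_contra (J L K m N E1 : ℕ) (hJ : 1 ≤ J) (hJL : J + 1 ≤ L) (hK : 1 ≤ K)
    (hE1 : 1 ≤ E1) :
    ∃ D r0 d0 : ℕ, ∀ r, r0 ≤ r →
    ∀ (W : Type) [Fintype W] [DecidableEq W] (G : SimpleGraph W) [DecidableRel G.Adj]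
      (c : W → Bool) (d : ℕ), d0 ≤ d → (∀ a b, G.Adj a b → c a ≠ c b) →
      (∀ w, d ≤ G.degree w ∧ G.degree w ≤ K * d) →
      ∀ (t : W) (W0 A' : Finset W), W0.Nonempty →
        (∀ w ∈ W0, ∃ p : Fin (J + 1) → W, IsPath G p ∧ p 0 = w ∧ p (Fin.last J) = t) →
        (∀ w ∈ W0, d ≤ E1 * #{b ∈ G.neighborFinset t | Rich G (J + 1) r w b}) →
        t ∉ A' → (∀ a ∈ A', D ≤ #{w ∈ W0 | G.Adj a w}) →
        D * #W0 ≤ ∑ a ∈ A', #{w ∈ W0 | G.Adj a w} →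
        ¬ NoRich L N m G :=
  gamma_contra_of kst min_degree_subset many_good J L K m N E1 hJ hJL hK hE1

end Pool.Agent.Helper97.RE
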