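import Pool.Agent.Helper97.RE.NoRich

/-!
# U5: from `t, W0, A'` to a contradiction with `NoRich`
-/

set_option autoImplicit false
set_option linter.unusedVariables false
set_option maxHeartbeats 400000

namespace Pool.Agent.Helper97.RE
open Finset Classical

theorem bool_of_ne {a b : Bool} (h : ¬ a = b) : a = !b := by
  revert a b; decide

theorem bool_ne_not {a : Bool} : ¬ a = !a := by
  revert a; decide

theorem gamma_contra_of
    (kst : ∀ (K E m : ℕ), ∃ M d0 : ℕ, 1 ≤ M ∧ ∀ {α β : Type} (S : Finset α) (T : Finset β)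
      (r : α → β → Prop) (d : ℕ), d0 ≤ d → #S = M → #T ≤ K * d →
      (∀ a ∈ S, d ≤ E * #{b ∈ T | r a b}) →
      ∃ A ⊆ S, ∃ B ⊆ T, #A = m ∧ #B = m ∧ ∀ a ∈ A, ∀ b ∈ B, r a b)
    (min_degree_subset : ∀ {W : Type} (G : SimpleGraph W) (X : Finset W) (D : ℕ)
      (hX : X.Nonempty) (h : 2 * D * #X ≤ ∑ x ∈ X, #{y ∈ X | G.Adj x y}),
      ∃ Y ⊆ X, Y.Nonempty ∧ ∀ y ∈ Y, D ≤ #{z ∈ Y | G.Adj y z})
    (many_good : ∀ (i J K N E1 : ℕ) (hJ : 1 ≤ J) (hK : 1 ≤ K) (hE1 : 1 ≤ E1),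
      ∃ D r0 E2 d0 : ℕ, 1 ≤ E2 ∧ ∀ r, r0 ≤ r →
      ∀ (W : Type) [Fintype W] [DecidableEq W] (G : SimpleGraph W) [DecidableRel G.Adj] (d : ℕ),
      d0 ≤ d → (∀ w, G.degree w ≤ K * d) →
      ∀ (t : W) (Y : Finset W), t ∉ Y → (∀ y ∈ Y, D ≤ #{z ∈ Y | G.Adj y z}) →
      ∀ a ∈ Y, (∀ p : Fin (i + 1) → W, IsPath G p → (∀ u, p u ∈ Y) → p 0 = a →
        d ≤ E1 * #{b ∈ G.neighborFinset t | Rich G (J + 1) r (p (Fin.last i)) b}) →
      d ≤ E2 * #{b ∈ G.neighborFinset t | Rich G (i + (J + 1)) N a b})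
    (J L K m N E1 : ℕ) (hJ : 1 ≤ J) (hJL : J + 1 ≤ L) (hK : 1 ≤ K)
    (hE1 : 1 ≤ E1) :
    ∃ D r0 d0 : ℕ, ∀ r, r0 ≤ r →
    ∀ (W : Type) [Fintype W] [DecidableEq W] (G : SimpleGraph W) [DecidableRel G.Adj]
      (c : W → Bool) (d : ℕ), d0 ≤ d → (∀ a b, G.Adj a b → c a ≠ c b) →
      (∀ w, d ≤ G.degree w ∧ G.degree w ≤ K * d) →
      ∀ (t : W) (W0 A' : Finset W), W0.Nonempty →
        (∀ w ∈ W0, ∃ p : Fin (J + 1) → W, IsPath G p ∧ p 0 = w ∧ p (Fin.last J) = t) →
        (∀ w ∈ W0, d ≤ E1 * #{b ∈ G.neighborFinset t | Rich G (J + 1) r w b}) →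
        t ∉ A' → (∀ a ∈ A', D ≤ #{w ∈ W0 | G.Adj a w}) →
        D * #W0 ≤ ∑ a ∈ A', #{w ∈ W0 | G.Adj a w} →
        ¬ NoRich L N m G := by
  obtain ⟨i, rfl⟩ : ∃ i, L = i + (J + 1) := ⟨L - (J + 1), by omega⟩
  obtain ⟨D1, r0, E2, d1, hE2, hgood⟩ := many_good i J K N E1 hJ hK hE1
  obtain ⟨M, d2, hM, hkst⟩ := kst K (2 * E2) m
  set D' := max D1 (max M 1) with hD'
  have hD1 : D1 ≤ D' := le_max_left _ _
  have hDM : M ≤ D' := (le_max_left _ _).trans (le_max_right _ _)
  have hD1' : 1 ≤ D' := (le_max_right _ _).trans (le_max_right _ _)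
  refine ⟨2 * D', r0, max d1 (max d2 (2 * E2 * (M + 1))), ?_⟩
  intro r hr W _ _ G _ c d hd hc hdeg t W0 A' hW0 hpath hrich htA hA hsum hNR
  have hd1 : d1 ≤ d := (le_max_left _ _).trans hd
  have hd2 : d2 ≤ d := (le_max_left _ _).trans ((le_max_right _ _).trans hd)
  have hd3 : 2 * E2 * (M + 1) ≤ d := (le_max_right _ _).trans ((le_max_right _ _).trans hd)
  -- colours
  obtain ⟨cW, hcW⟩ : ∃ cW : Bool, ∀ w ∈ W0, c w = cW := by
    refine ⟨if J % 2 = 0 then c t else !(c t), ?_⟩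
    intro w hw
    obtain ⟨p, hp, hp0, hpl⟩ := hpath w hw
    have h1 := hp.colour hc J (by omega)
    have h2 : p ⟨J, by omega⟩ = t := hpl
    rw [h2, hp0] at h1
    by_cases hJ2 : J % 2 = 0
    · rw [if_pos hJ2]
      exact (h1.2 hJ2).symm
    · rw [if_neg hJ2]
      exact bool_of_ne (fun h => hJ2 (h1.1 h.symm))
  have hcA : ∀ a ∈ A', c a = !cW := by
    intro a ha
    have h1 := hA a ha
    have h2 : 0 < #{w ∈ W0 | G.Adj a w} := by omega
    obtain ⟨w, hw⟩ := Finset.card_pos.1 h2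
    rw [mem_filter] at hw
    have h3 := hc _ _ hw.2
    rw [hcW w hw.1] at h3
    exact bool_of_ne h3
  have htW : t ∉ W0 := by
    intro ht
    obtain ⟨p, hp, hp0, hpl⟩ := hpath t ht
    have := hp.1 (hp0.trans hpl.symm)
    have := congrArg Fin.val this
    simp only [Fin.val_zero, Fin.val_last] at this
    omega
  -- the set X
  have hdisj : Disjoint A' W0 := by
    rw [Finset.disjoint_left]
    intro x hx hx'
    have h1 := hcA x hx
    rw [hcW x hx'] at h1
    exact bool_ne_not h1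
  have hX : (A' ∪ W0).Nonempty := hW0.mono subset_union_right
  have hXsum : 2 * D' * #(A' ∪ W0) ≤ ∑ x ∈ A' ∪ W0, #{y ∈ A' ∪ W0 | G.Adj x y} := by
    rw [sum_union hdisj, card_union_of_disjoint hdisj, Nat.mul_add]
    have h1 : ∑ a ∈ A', #{w ∈ W0 | G.Adj a w} ≤ ∑ x ∈ A', #{y ∈ A' ∪ W0 | G.Adj x y} := by
      refine sum_le_sum fun a _ => card_le_card ?_
      exact filter_subset_filter _ subset_union_right
    have h2 : ∑ a ∈ A', #{w ∈ W0 | G.Adj a w} ≤ ∑ x ∈ W0, #{y ∈ A' ∪ W0 | G.Adj x y} := by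
      have h3 : ∑ a ∈ A', #{w ∈ W0 | G.Adj a w} = ∑ w ∈ W0, #{a ∈ A' | G.Adj a w} :=
        sum_card_bipartiteAbove_eq_sum_card_bipartiteBelow (s := A') (t := W0) (r := G.Adj)
      rw [h3]
      refine sum_le_sum fun w _ => card_le_card ?_
      intro a ha
      rw [mem_filter] at ha ⊢
      exact ⟨mem_union_left _ ha.1, ha.2.symm⟩
    have h3 : 2 * D' * #A' ≤ ∑ a ∈ A', #{w ∈ W0 | G.Adj a w} := by
      rw [mul_comm]
      exact card_nsmul_le_sum _ _ _ hA
    omega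
  obtain ⟨Y, hYX, hYne, hY0⟩ := min_degree_subset G (A' ∪ W0) D' hX
    (hXsum.trans (le_of_eq (sum_congr rfl fun x _ => by congr)))
  have hY : ∀ y ∈ Y, D' ≤ #{z ∈ Y | G.Adj y z} :=
    fun y hy => (hY0 y hy).trans (le_of_eq (by congr))
  have htY : t ∉ Y := by
    intro ht
    rcases mem_union.1 (hYX ht) with h | h
    · exact htA h
    · exact htW h
  have hYW : ∀ y ∈ Y, c y = cW → y ∈ W0 := by
    intro y hy hcy
    rcases mem_union.1 (hYX hy) with h | h
    · have := hcA y h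
      rw [hcy] at this
      exact absurd this bool_ne_not
    · exact h
  -- the vertex s
  have hflip : ∀ a b, G.Adj a b → c b = !(c a) := by
    intro a b h
    exact bool_of_ne (fun h' => hc a b h h'.symm)
  obtain ⟨s, hsY, hs⟩ : ∃ s ∈ Y, c s = if i % 2 = 0 then !cW else cW := by
    obtain ⟨y, hy⟩ := hYne
    by_cases h : c y = if i % 2 = 0 then !cW else cW
    · exact ⟨y, hy, h⟩
    · have h1 := hY y hy
      have h2 : 0 < #{z ∈ Y | G.Adj y z} := by omega
      obtain ⟨z, hz⟩ := Finset.card_pos.1 h2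
      rw [mem_filter] at hz
      refine ⟨z, hz.1, ?_⟩
      rw [hflip _ _ hz.2, bool_of_ne h, Bool.not_not]
  have hst : s ≠ t := fun h => htY (h ▸ hsY)
  have hmany : ∀ a ∈ Y, G.Adj s a →
      d ≤ E2 * #{b ∈ G.neighborFinset t | Rich G (i + (J + 1)) N a b} := by
    intro a haY hsa
    refine hgood r hr W G d hd1 (fun w => (hdeg w).2) t Y htY
      (fun y hy => (hD1.trans (hY y hy)).trans (le_of_eq (by congr))) a haY ?_
    intro p hp hpY hp0
    have hl : p (Fin.last i) ∈ W0 := by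
      refine hYW _ (hpY _) ?_
      have h1 := hp.colour hc i (by omega)
      have h2 : p ⟨i, by omega⟩ = p (Fin.last i) := rfl
      rw [h2, hp0] at h1
      have h3 := hflip _ _ hsa
      rw [hs] at h3
      by_cases hi : i % 2 = 0
      · rw [if_pos hi] at h3
        rw [h1.2 hi, h3, Bool.not_not]
      · rw [if_neg hi] at h3
        have h4 : ¬ c (p (Fin.last i)) = c a := fun h => hi (h1.1 h)
        rw [h3] at h4
        rw [bool_of_ne h4, Bool.not_not]
    exact (hrich _ hl).trans (le_of_eq (by congr))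
  -- the sets S2 and T
  obtain ⟨S2, hS2, hS2c⟩ : ∃ S2 ⊆ ({z ∈ Y | G.Adj s z} : Finset W), #S2 = M :=
    Finset.exists_subset_card_eq (hDM.trans (hY s hsY))
  have hS2Y : ∀ a ∈ S2, a ∈ Y ∧ G.Adj s a := fun a ha => mem_filter.1 (hS2 ha)
  have hTc : #(G.neighborFinset t \ insert s S2) ≤ K * d := by
    refine (card_le_card sdiff_subset).trans ?_
    rw [SimpleGraph.card_neighborFinset_eq_degree]
    exact (hdeg t).2
  obtain ⟨A, hAS, B, hBT, hAc, hBc, hAB⟩ := hkst S2 (G.neighborFinset t \ insert s S2)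
    (fun a b => Rich G (i + (J + 1)) N a b) d hd2 hS2c hTc (by
      intro a ha
      have h1 := hmany a (hS2Y a ha).1 (hS2Y a ha).2
      have h2 : #{b ∈ G.neighborFinset t | Rich G (i + (J + 1)) N a b} ≤
          #{b ∈ G.neighborFinset t \ insert s S2 | Rich G (i + (J + 1)) N a b} + (M + 1) := by
        have h3 : ({b ∈ G.neighborFinset t | Rich G (i + (J + 1)) N a b} : Finset W) ⊆
            {b ∈ G.neighborFinset t \ insert s S2 | Rich G (i + (J + 1)) N a b} ∪
              insert s S2 := by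
          intro b hb
          rw [mem_filter] at hb
          by_cases h : b ∈ insert s S2
          · exact mem_union_right _ h
          · refine mem_union_left _ ?_
            rw [mem_filter, mem_sdiff]
            exact ⟨⟨hb.1, h⟩, hb.2⟩
        refine (card_le_card h3).trans ((card_union_le _ _).trans ?_)
        have := card_insert_le s S2
        omega
      have h4 := Nat.mul_le_mul_left E2 h2
      rw [Nat.mul_add] at h4
      have h5 : 2 * E2 * (M + 1) = 2 * (E2 * (M + 1)) := by ring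
      rw [h5] at hd3
      rw [Nat.mul_assoc]
      omega)
  obtain ⟨a, ha, b, hb, hab⟩ := hNR s t A B hst (fun a ha => (hS2Y a (hAS ha)).2)
    (fun b hb => by
      have := (mem_sdiff.1 (hBT hb)).1
      rw [SimpleGraph.mem_neighborFinset] at this
      exact this) hAc hBc
    (by
      rw [Finset.disjoint_left]
      intro x hx hx'
      exact (mem_sdiff.1 (hBT hx')).2 (mem_insert_of_mem (hAS hx)))
    (fun h => htY (hS2Y t (hAS h)).1)
    (fun h => (mem_sdiff.1 (hBT h)).2 (mem_insert_self _ _))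
  exact hab (hAB a ha b hb)

end Pool.Agent.Helper97.RE
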